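import Pool.Agent.H927.MG.Goals

/-!
Combination of the two descent statements along formal arcs.
-/

set_option autoImplicit false

open AlgebraicGeometry CategoryTheory Limits Polynomial
open scoped TensorProduct

namespace Pool.Agent.H94.MG927

open Pool.Agent.H927.MG

/-- two extensions of a field have a common algebraically closed extension -/
lemma common_ext (F K L : Type) [Field F] [Field K] [Field L] (f : F →+* K) (g : F →+* L) :
    ∃ (Ω : Type) (_ : Field Ω) (_ : IsAlgClosed Ω) (a : K →+* Ω) (b : L →+* Ω),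
      a.comp f = b.comp g := by
  let _ := f.toAlgebra
  let _ := g.toAlgebra
  have hn : Nontrivial (K ⊗[F] L) := inferInstance
  obtain ⟨m, hm⟩ := Ideal.exists_maximal (K ⊗[F] L)
  let _ := Ideal.Quotient.field m
  refine ⟨AlgebraicClosure ((K ⊗[F] L) ⧸ m), inferInstance, inferInstance,
    ((algebraMap ((K ⊗[F] L) ⧸ m) (AlgebraicClosure ((K ⊗[F] L) ⧸ m))).comp
      (Ideal.Quotient.mk m)).comp
      (Algebra.TensorProduct.includeLeft : K →ₐ[F] K ⊗[F] L).toRingHom,
    ((algebraMap ((K ⊗[F] L) ⧸ m) (AlgebraicClosure ((K ⊗[F] L) ⧸ m))).comp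
      (Ideal.Quotient.mk m)).comp
      (Algebra.TensorProduct.includeRight : L →ₐ[F] K ⊗[F] L).toRingHom, ?_⟩
  ext x
  have h1 : (Algebra.TensorProduct.includeLeft : K →ₐ[F] K ⊗[F] L) (algebraMap F K x) =
      (Algebra.TensorProduct.includeRight : L →ₐ[F] K ⊗[F] L) (algebraMap F L x) := by
    rw [AlgHom.commutes, AlgHom.commutes]
  exact congrArg (fun z => algebraMap ((K ⊗[F] L) ⧸ m) (AlgebraicClosure ((K ⊗[F] L) ⧸ m))
    (Ideal.Quotient.mk m z)) h1

lemma arc1' (h1 : S_arc1) (M : Scheme.{0}) (F K : Type) [Field F] [Field K] [CharZero F]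
    (f : F →+* K) (ρ : Spec (.of K) ⟶ M)
    (H : ∀ (Ω : Type) [Field Ω] [IsAlgClosed Ω] (a a' : K →+* Ω), a.comp f = a'.comp f →
      Spec.map (CommRingCat.ofHom a) ≫ ρ = Spec.map (CommRingCat.ofHom a') ≫ ρ) :
    ∃ ψ : Spec (.of F) ⟶ M, Spec.map (CommRingCat.ofHom f) ≫ ψ = ρ := by
  let _ := f.toAlgebra
  exact h1 M F K ρ H

lemma arc_apply (s : PowerSeries ℂ) (p : ℂ[X]) : arc s p = aeval s p := by
  unfold arc
  rw [coe_eval₂RingHom, aeval_def]
  rfl

lemma arc_C (s : PowerSeries ℂ) (z : ℂ) : arc s (C z) = PowerSeries.C z := by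
  unfold arc
  rw [coe_eval₂RingHom, eval₂_C]

lemma arc_X (s : PowerSeries ℂ) : arc s X = s := by
  unfold arc
  rw [coe_eval₂RingHom, eval₂_X]

lemma arc_inj {s : PowerSeries ℂ} (h : ∀ z : ℂ, s ≠ PowerSeries.C z) :
    Function.Injective (arc s) := by
  have h1 : Transcendental ℂ s := by
    intro h2
    have h3 : IsIntegral ℂ s := h2.isIntegral
    have h4 := IsAlgClosed.degree_eq_one_of_irreducible ℂ (minpoly.irreducible h3)
    obtain ⟨z, hz⟩ := minpoly.mem_range_of_degree_eq_one ℂ s h4
    exact h z hz.symm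
  have h2 := transcendental_iff_injective.1 h1
  intro p q hpq
  rw [arc_apply, arc_apply] at hpq
  exact h2 hpq

/-- the fraction field of the power series -/
abbrev KK : Type := FractionRing (PowerSeries ℂ)

/-- extension of the arc to the fraction fields -/
noncomputable def jj (s : PowerSeries ℂ) (h : Function.Injective (arc s)) : RatFunc ℂ →+* KK :=
  IsFractionRing.lift (A := ℂ[X]) (K := RatFunc ℂ)
    (g := (algebraMap (PowerSeries ℂ) KK).comp (arc s))
    ((IsFractionRing.injective (PowerSeries ℂ) KK).comp h)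

lemma jj_algebraMap (s : PowerSeries ℂ) (h : Function.Injective (arc s)) (p : ℂ[X]) :
    jj s h (algebraMap ℂ[X] (RatFunc ℂ) p) = algebraMap (PowerSeries ℂ) KK (arc s p) :=
  IsFractionRing.lift_algebraMap _ p

lemma Spec_comp {A B D : Type} [CommRing A] [CommRing B] [CommRing D] (f : A →+* B)
    (g : B →+* D) : Spec.map (CommRingCat.ofHom g) ≫ Spec.map (CommRingCat.ofHom f) =
      Spec.map (CommRingCat.ofHom (g.comp f)) := by
  rw [← Spec.map_comp, ← CommRingCat.ofHom_comp]

theorem arc_of : S_arc1 → S_arc2 → S_arc := by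
  intro h1 h2 M sM _ _ s hs hs' ρ hρ H
  have hc : ∀ c (z : ℂ), s c ≠ PowerSeries.C z := by
    intro c z h
    have h3 := hs c
    rw [h, PowerSeries.constantCoeff_C] at h3
    rw [h3] at h
    exact hs' c h
  have hinj : ∀ c, Function.Injective (arc (s c)) := fun c => arc_inj (hc c)
  have hai : Function.Injective (algebraMap (PowerSeries ℂ) KK) :=
    IsFractionRing.injective (PowerSeries ℂ) KK
  -- the arc at 0 descends
  obtain ⟨ψ, hψ⟩ := arc1' h1 M (RatFunc ℂ) KK (jj (s 0) (hinj 0))
    (Spec.map (CommRingCat.ofHom (algebraMap (PowerSeries ℂ) KK)) ≫ ρ 0) (by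
      intro Ω _ _ a a' haa
      have h3 := H Ω 0 0 (a.comp (algebraMap (PowerSeries ℂ) KK))
        (a'.comp (algebraMap (PowerSeries ℂ) KK)) (a.injective.comp hai) (a'.injective.comp hai)
        (by
          ext z
          have h4 := RingHom.congr_fun haa (algebraMap ℂ[X] (RatFunc ℂ) (C z))
          rw [RingHom.comp_apply, RingHom.comp_apply, jj_algebraMap, arc_C] at h4
          exact h4)
        (by
          have h4 := RingHom.congr_fun haa (algebraMap ℂ[X] (RatFunc ℂ) X)
          rw [RingHom.comp_apply, RingHom.comp_apply, jj_algebraMap, arc_X] at h4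
          exact h4)
      rw [← Spec_comp (algebraMap (PowerSeries ℂ) KK) a, ← Spec_comp (algebraMap (PowerSeries ℂ) KK) a',
        Category.assoc, Category.assoc] at h3
      exact h3)
  -- `ψ` is a morphism over `ℂ`
  have hψ' : ψ ≫ sM = Spec.map (CommRingCat.ofHom (algebraMap ℂ (RatFunc ℂ))) := by
    have h3 : Spec.map (CommRingCat.ofHom (jj (s 0) (hinj 0))) ≫ (ψ ≫ sM) =
        Spec.map (CommRingCat.ofHom (jj (s 0) (hinj 0))) ≫
          Spec.map (CommRingCat.ofHom (algebraMap ℂ (RatFunc ℂ))) := by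
      rw [← Category.assoc, hψ, Category.assoc, hρ, Spec_comp, Spec_comp]
      congr 2
      ext z
      rw [RingHom.comp_apply, RingHom.comp_apply,
        IsScalarTower.algebraMap_apply ℂ ℂ[X] (RatFunc ℂ), jj_algebraMap]
      rw [show algebraMap ℂ ℂ[X] z = C z from rfl, arc_C]
    obtain ⟨g, hg⟩ : ∃ g, Spec.map g = ψ ≫ sM := ⟨Spec.preimage _, Spec.map_preimage _⟩
    rw [← hg] at h3 ⊢
    rw [← Spec.map_comp, ← Spec.map_comp] at h3
    have h4 := Spec.map_injective h3
    congr 1
    ext z
    have h5 := congrArg (fun q => q.hom z) h4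
    exact (jj (s 0) (hinj 0)).injective h5
  refine h2 M sM ψ hψ' s hs hs' ρ hρ ?_
  intro c
  obtain ⟨Ω, i1, i2, a, b, hab⟩ := common_ext (RatFunc ℂ) KK KK (jj (s c) (hinj c))
    (jj (s 0) (hinj 0))
  refine ⟨Ω, i1, a.comp (algebraMap (PowerSeries ℂ) KK), a.comp (jj (s c) (hinj c)),
    a.injective.comp hai, ?_, ?_⟩
  · ext z
    · rw [RingHom.comp_apply, RingHom.comp_apply, RingHom.comp_apply, RingHom.comp_apply,
        RingHom.comp_apply, RingHom.comp_apply, jj_algebraMap]
    · rw [RingHom.comp_apply, RingHom.comp_apply, RingHom.comp_apply, RingHom.comp_apply,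
        jj_algebraMap]
  · have h3 := H Ω c 0 (a.comp (algebraMap (PowerSeries ℂ) KK))
        (b.comp (algebraMap (PowerSeries ℂ) KK)) (a.injective.comp hai) (b.injective.comp hai)
        (by
          ext z
          have h4 := RingHom.congr_fun hab (algebraMap ℂ[X] (RatFunc ℂ) (C z))
          rw [RingHom.comp_apply, RingHom.comp_apply, jj_algebraMap, jj_algebraMap, arc_C,
            arc_C] at h4
          exact h4)
        (by
          have h4 := RingHom.congr_fun hab (algebraMap ℂ[X] (RatFunc ℂ) X)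
          rw [RingHom.comp_apply, RingHom.comp_apply, jj_algebraMap, jj_algebraMap, arc_X,
            arc_X] at h4
          exact h4)
    rw [h3, ← Spec_comp (algebraMap (PowerSeries ℂ) KK) b, Category.assoc, ← hψ, ← Category.assoc,
      Spec_comp, hab]

end Pool.Agent.H94.MG927
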